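import Pool.Agent.helper45.SGK.Spec

set_option autoImplicit false

namespace Pool.Agent.SGK

open Finset Pool.Agent.helper38.Neg Pool.Agent.helper55.NT
open Pool.Agent.SGC (Sg SCirc Ext Mv hw RN Solv stA stB)

theorem AFS_two {k : ℕ} (a b : Wd k) : a + b + b = a := by
  funext j
  have h : ∀ u v : ZMod 2, u + v + v = u := by decide
  exact h _ _

theorem AFS : AFS_stmt := by
  intro k P hP z
  refine ⟨fun hz l ρ h => h z hz, fun h => ?_⟩
  by_cases hne : P.Nonempty
  swap
  · rw [Finset.not_nonempty_iff_eq_empty] at hne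
    subst hne
    exfalso
    have h1 := h 0 1 (by simp)
    simp at h1
  obtain ⟨z₀, hz₀⟩ := hne
  let W : Submodule (ZMod 2) (Wd k) :=
    { carrier := {v | v + z₀ ∈ P}
      add_mem' := by
        intro a b ha hb
        have h1 := hP _ ha _ hb _ hz₀
        have h2 : a + z₀ + (b + z₀) + z₀ = a + b + z₀ := by
          rw [← add_assoc, AFS_two, add_right_comm]
        rw [h2] at h1
        exact h1
      zero_mem' := by
        show 0 + z₀ ∈ P
        rw [zero_add]; exact hz₀
      smul_mem' := by
        intro c v hv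
        show c • v + z₀ ∈ P
        have hc : ∀ c : ZMod 2, c = 0 ∨ c = 1 := by decide
        rcases hc c with rfl | rfl
        · rw [zero_smul, zero_add]; exact hz₀
        · rw [one_smul]; exact hv }
  have hW : ∀ v, v ∈ W ↔ v + z₀ ∈ P := fun v => Iff.rfl
  by_contra hz
  have h1 : z + z₀ ∉ W := by
    rw [hW, AFS_two]; exact hz
  obtain ⟨f, hf1, hf2⟩ := Submodule.exists_le_ker_of_notMem h1
  have hfl : ∀ v : Wd k, f v = ∑ j, f (Pi.single j 1) * v j := by
    intro v
    conv_lhs => rw [← LinearMap.sum_single_apply (fun _ => ZMod 2) v]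
    rw [map_sum]
    refine Finset.sum_congr rfl fun j _ => ?_
    have h2 : (Pi.single j (v j) : Wd k) = v j • (Pi.single j 1 : Wd k) := by
      rw [← Pi.single_smul, smul_eq_mul, mul_one]
    rw [h2, map_smul, smul_eq_mul, mul_comm]
  have h2 : ∀ z' ∈ P, f z' = f z₀ := by
    intro z' hz'
    have h3 : z' + z₀ ∈ W := by rw [hW, AFS_two]; exact hz'
    have h4 := hf2 h3
    rw [LinearMap.mem_ker, map_add] at h4
    have h5 : ∀ a b : ZMod 2, a + b = 0 → a = b := by decide
    exact h5 _ _ h4
  have h3 := h (fun j => f (Pi.single j 1)) (f z₀) (fun z' hz' => by rw [← hfl]; exact h2 z' hz')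
  rw [← hfl] at h3
  apply hf1
  rw [map_add, h3]
  have h5 : ∀ a : ZMod 2, a + a = 0 := by decide
  exact h5 _

end Pool.Agent.SGK
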